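import Pool.Agent.T6.H63.WK.Defs

/-!
# Waiter-Client `k`-SAT: modules CNT1 and CNT2, the numbers of clauses in the families `fam1`, `fam2`
-/

set_option autoImplicit false

open Finset Pool.Agent.Y117.SG

namespace Pool.Agent.T6.H63.WK

namespace CNT

/-- the variables with a positive literal -/
def posv {n : ℕ} (c : Clause n) : Finset (Fin n) := univ.filter fun i => (i, true) ∈ c

lemma mem_posv {n : ℕ} {c : Clause n} {i : Fin n} : i ∈ posv c ↔ (i, true) ∈ c := by
  simp [posv]

lemma mem_vars {n : ℕ} {c : Clause n} {i : Fin n} :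
    i ∈ vars c ↔ (i, true) ∈ c ∨ (i, false) ∈ c := by
  unfold vars
  rw [mem_image]
  constructor
  · rintro ⟨⟨j, b⟩, h, rfl⟩
    cases b
    · exact Or.inr h
    · exact Or.inl h
  · rintro (h | h)
    · exact ⟨_, h, rfl⟩
    · exact ⟨_, h, rfl⟩

lemma posv_subset {n : ℕ} (c : Clause n) : posv c ⊆ vars c := fun i hi =>
  mem_vars.2 (Or.inl (mem_posv.1 hi))

lemma mem_false {n k : ℕ} {c : Clause n} (hc : c ∈ board n k) {i : Fin n} :
    (i, false) ∈ c ↔ i ∈ vars c ∧ i ∉ posv c := by
  have h := (mem_filter.1 hc).2.2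
  constructor
  · intro hi
    refine ⟨mem_vars.2 (Or.inr hi), fun hp => ?_⟩
    have := h _ hi _ (mem_posv.1 hp) rfl
    simp at this
  · rintro ⟨h1, h2⟩
    rcases mem_vars.1 h1 with h3 | h3
    · exact absurd (mem_posv.2 h3) h2
    · exact h3

lemma inj {n k : ℕ} {c c' : Clause n} (hc : c ∈ board n k) (hc' : c' ∈ board n k)
    (hp : posv c = posv c') (hv : vars c = vars c') : c = c' := by
  ext ⟨i, b⟩
  cases b
  · rw [mem_false hc, mem_false hc', hp, hv]
  · rw [← mem_posv, ← mem_posv, hp]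

lemma card_vars {n k : ℕ} {c : Clause n} (hc : c ∈ board n k) : (vars c).card = k := by
  have h := (mem_filter.1 hc).2
  unfold vars
  rw [card_image_of_injOn, h.1]
  intro l hl l' hl' e
  exact h.2 l hl l' hl' e

lemma choose_le (n k : ℕ) (hkn : k ≤ n) (hn : 0 < n) : ∀ j : ℕ, j ≤ k →
    (((n - j).choose (k - j) : ℕ) : ℝ) ≤ ((k : ℝ) / n) ^ j * (n.choose k : ℝ) := by
  intro j
  induction j with
  | zero => intro _; simp
  | succ j ih =>
    intro hj
    have ih := ih (by omega)
    have e := Nat.add_one_mul_choose_eq (n - (j + 1)) (k - (j + 1))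
    have e1 : n - (j + 1) + 1 = n - j := by omega
    have e2 : k - (j + 1) + 1 = k - j := by omega
    rw [e1, e2] at e
    have hnr : (0 : ℝ) < n := by exact_mod_cast hn
    have hnj : (0 : ℝ) < ((n - j : ℕ) : ℝ) := by
      have : 0 < n - j := by omega
      exact_mod_cast this
    have er : ((n - j : ℕ) : ℝ) * ((n - (j + 1)).choose (k - (j + 1)) : ℝ) =
        ((n - j).choose (k - j) : ℝ) * ((k - j : ℕ) : ℝ) := by exact_mod_cast e
    have hq : ((k - j : ℕ) : ℝ) * n ≤ (k : ℝ) * ((n - j : ℕ) : ℝ) := by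
      rw [Nat.cast_sub (by omega), Nat.cast_sub (by omega)]
      have : (j : ℝ) * k ≤ j * n := mul_le_mul_of_nonneg_left (by exact_mod_cast hkn) (by positivity)
      nlinarith
    have hx : ((n - (j + 1)).choose (k - (j + 1)) : ℝ) ≤ (k : ℝ) / n * ((n - j).choose (k - j) : ℝ) := by
      rw [div_mul_eq_mul_div, le_div_iff₀ hnr]
      have hc : (0 : ℝ) ≤ ((n - j).choose (k - j) : ℝ) := by positivity
      have := mul_le_mul_of_nonneg_left hq hc
      have h3 : ((n - j : ℕ) : ℝ) * (((n - (j + 1)).choose (k - (j + 1)) : ℝ) * n) ≤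
          ((n - j : ℕ) : ℝ) * ((k : ℝ) * ((n - j).choose (k - j) : ℝ)) := by
        calc ((n - j : ℕ) : ℝ) * (((n - (j + 1)).choose (k - (j + 1)) : ℝ) * n)
            = ((n - j).choose (k - j) : ℝ) * (((k - j : ℕ) : ℝ) * n) := by
              rw [← mul_assoc, er]; ring
          _ ≤ ((n - j).choose (k - j) : ℝ) * ((k : ℝ) * ((n - j : ℕ) : ℝ)) := this
          _ = _ := by ring
      exact le_of_mul_le_mul_left h3 hnj
    calc ((n - (j + 1)).choose (k - (j + 1)) : ℝ) ≤ (k : ℝ) / n * ((n - j).choose (k - j) : ℝ) := hx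
      _ ≤ (k : ℝ) / n * (((k : ℝ) / n) ^ j * (n.choose k : ℝ)) :=
        mul_le_mul_of_nonneg_left ih (by positivity)
      _ = _ := by ring

lemma card_sup (n k : ℕ) (hkn : k ≤ n) (hn : 0 < n) (J : Finset (Fin n)) :
    ((((powersetCard k (univ : Finset (Fin n))).filter fun K => J ⊆ K).card : ℕ) : ℝ) ≤
      ((k : ℝ) / n) ^ J.card * (n.choose k : ℝ) := by
  by_cases hJ : J.card ≤ k
  · refine le_trans ?_ (choose_le n k hkn hn J.card hJ)
    have hc : (powersetCard (k - J.card) (univ \ J : Finset (Fin n))).card =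
        (n - J.card).choose (k - J.card) := by
      rw [card_powersetCard, card_sdiff_of_subset (subset_univ _), card_univ, Fintype.card_fin]
    rw [← hc]
    norm_cast
    refine card_le_card_of_injOn (fun K => K \ J) (fun K hK => ?_) (fun K hK K' hK' e => ?_)
    · rw [mem_coe, mem_filter, mem_powersetCard] at hK
      rw [mem_coe, mem_powersetCard]
      refine ⟨sdiff_subset_sdiff (subset_univ _) le_rfl, ?_⟩
      rw [card_sdiff_of_subset hK.2, hK.1.2]
    · rw [mem_coe, mem_filter] at hK hK'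
      simp only at e
      rw [← sdiff_union_of_subset hK.2, ← sdiff_union_of_subset hK'.2, e]
  · have : (powersetCard k (univ : Finset (Fin n))).filter (fun K => J ⊆ K) = ∅ := by
      rw [filter_eq_empty_iff]
      intro K hK hJK
      have := card_le_card hJK
      rw [(mem_powersetCard.1 hK).2] at this
      omega
    rw [this]
    simp only [card_empty, Nat.cast_zero]
    positivity

lemma sum_pow {n : ℕ} (W P : Finset (Fin n)) (hP : P ⊆ W) (x : ℝ) :
    ∑ I ∈ W.powerset, x ^ (I ∪ P).card = (2 * x) ^ P.card * (1 + x) ^ (W \ P).card := by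
  have h1 : ∏ i ∈ W, (x + (if i ∈ P then x else 1)) =
      (2 * x) ^ P.card * (1 + x) ^ (W \ P).card := by
    rw [← prod_sdiff hP, mul_comm]
    congr 1
    · rw [prod_congr rfl (g := fun _ => 2 * x), prod_const]
      intro i hi
      rw [if_pos hi]; ring
    · rw [prod_congr rfl (g := fun _ => 1 + x), prod_const]
      intro i hi
      rw [if_neg (mem_sdiff.1 hi).2]; ring
  rw [← h1, prod_add]
  refine sum_congr rfl fun I hI => ?_
  rw [prod_const, prod_ite, prod_const, prod_const_one, mul_one, ← pow_add]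
  congr 1
  have hIW := mem_powerset.1 hI
  have : I ∪ P = I ∪ (W \ I).filter (fun i => i ∈ P) := by
    ext i
    simp only [mem_union, mem_filter, mem_sdiff]
    constructor
    · rintro (h | h)
      · exact Or.inl h
      · by_cases hi : i ∈ I
        · exact Or.inl hi
        · exact Or.inr ⟨⟨hP h, hi⟩, h⟩
    · rintro (h | h)
      · exact Or.inl h
      · exact Or.inr h.2
  rw [this, card_union_of_disjoint]
  rw [disjoint_left]
  intro i hi h
  exact (mem_sdiff.1 (mem_filter.1 h).1).2 hi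

open Classical in
lemma key (n k : ℕ) (hkn : k ≤ n) (hn : 0 < n) (W P : Finset (Fin n)) (hP : P ⊆ W) :
    ((((fam1 n k W).filter fun c => P ⊆ vars c).card : ℕ) : ℝ) ≤
      (n.choose k : ℝ) * ((2 * ((k : ℝ) / n)) ^ P.card * Real.exp (k * W.card / n)) := by
  have hx : (0 : ℝ) ≤ (k : ℝ) / n := by positivity
  have h1 : ((fam1 n k W).filter fun c => P ⊆ vars c).card ≤
      (W.powerset.sigma fun I => (powersetCard k (univ : Finset (Fin n))).filter
        fun K => I ∪ P ⊆ K).card := by
    refine card_le_card_of_injOn (fun c => ⟨posv c, vars c⟩) (fun c hc => ?_)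
      (fun c hc c' hc' e => ?_)
    · rw [mem_coe, mem_filter] at hc
      obtain ⟨hc1, hc2⟩ := hc
      rw [fam1, mem_filter] at hc1
      rw [mem_coe, mem_sigma, mem_powerset, mem_filter, mem_powersetCard]
      refine ⟨fun i hi => ?_, ⟨subset_univ _, card_vars hc1.1⟩,
        union_subset (posv_subset c) hc2⟩
      by_contra hW
      have := hc1.2 (i, true) (mem_posv.1 hi) hW
      simp at this
    · rw [mem_coe, mem_filter, fam1, mem_filter] at hc hc'
      simp only [Sigma.mk.injEq, heq_eq_eq] at e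
      exact inj hc.1.1 hc'.1.1 e.1 e.2
  rw [card_sigma] at h1
  have h2 : ((((fam1 n k W).filter fun c => P ⊆ vars c).card : ℕ) : ℝ) ≤
      ∑ I ∈ W.powerset, ((k : ℝ) / n) ^ (I ∪ P).card * (n.choose k : ℝ) := by
    calc ((((fam1 n k W).filter fun c => P ⊆ vars c).card : ℕ) : ℝ) ≤
        ((∑ I ∈ W.powerset, ((powersetCard k (univ : Finset (Fin n))).filter
          fun K => I ∪ P ⊆ K).card : ℕ) : ℝ) := by exact_mod_cast h1
      _ = ∑ I ∈ W.powerset, (((powersetCard k (univ : Finset (Fin n))).filter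
          fun K => I ∪ P ⊆ K).card : ℝ) := by push_cast; rfl
      _ ≤ _ := sum_le_sum fun I _ => card_sup n k hkn hn _
  rw [← sum_mul, sum_pow W P hP, mul_comm] at h2
  refine h2.trans (mul_le_mul_of_nonneg_left (mul_le_mul_of_nonneg_left ?_ (by positivity))
    (by positivity))
  have h3 : (1 + (k : ℝ) / n) ≤ Real.exp ((k : ℝ) / n) := by
    have := Real.add_one_le_exp ((k : ℝ) / n)
    linarith
  calc (1 + (k : ℝ) / n) ^ (W \ P).card ≤ (1 + (k : ℝ) / n) ^ W.card :=
        pow_le_pow_right₀ (by linarith) (card_le_card sdiff_subset)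
    _ ≤ Real.exp ((k : ℝ) / n) ^ W.card := pow_le_pow_left₀ (by linarith) h3 _
    _ = Real.exp (k * W.card / n) := by
        rw [← Real.exp_nat_mul]
        congr 1
        ring

end CNT

open CNT in
open Classical in
theorem cnt1 : StmCnt1 := by
  intro n k hk hkn W
  have := key n k hkn (by omega) W ∅ (empty_subset _)
  simpa using this

open CNT in
open Classical in
theorem cnt2 : StmCnt2 := by
  intro n k hk hkn W
  have hsub : fam2 n k W ⊆ (powersetCard 2 W).biUnion
      fun P => (fam1 n k W).filter fun c => P ⊆ vars c := by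
    intro c hc
    rw [fam2, mem_filter] at hc
    obtain ⟨P, hP, hPc⟩ := exists_subset_card_eq hc.2.2
    rw [mem_biUnion]
    refine ⟨P, mem_powersetCard.2 ⟨hP.trans inter_subset_right, hPc⟩, ?_⟩
    rw [mem_filter, fam1, mem_filter]
    exact ⟨⟨hc.1, hc.2.1⟩, hP.trans inter_subset_left⟩
  have h1 : ((fam2 n k W).card : ℝ) ≤ ∑ P ∈ powersetCard 2 W,
      (((fam1 n k W).filter fun c => P ⊆ vars c).card : ℝ) := by
    have := (card_le_card hsub).trans card_biUnion_le
    exact_mod_cast this
  have h2 : ∑ P ∈ powersetCard 2 W, (((fam1 n k W).filter fun c => P ⊆ vars c).card : ℝ) ≤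
      ∑ P ∈ powersetCard 2 W,
        (n.choose k : ℝ) * ((2 * ((k : ℝ) / n)) ^ 2 * Real.exp (k * W.card / n)) := by
    refine sum_le_sum fun P hP => ?_
    have hP := mem_powersetCard.1 hP
    have := key n k hkn (by omega) W P hP.1
    rw [hP.2] at this
    exact this
  rw [sum_const, card_powersetCard, nsmul_eq_mul] at h2
  have h3 : ((W.card.choose 2 : ℕ) : ℝ) ≤ (W.card : ℝ) ^ 2 / 2 := by
    rw [Nat.cast_choose_two]
    have : (0 : ℝ) ≤ W.card := by positivity
    nlinarith
  have hE : 0 ≤ (n.choose k : ℝ) * ((2 * ((k : ℝ) / n)) ^ 2 * Real.exp (k * W.card / n)) := by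
    positivity
  calc ((fam2 n k W).card : ℝ) ≤ _ := h1
    _ ≤ _ := h2
    _ ≤ (W.card : ℝ) ^ 2 / 2 *
        ((n.choose k : ℝ) * ((2 * ((k : ℝ) / n)) ^ 2 * Real.exp (k * W.card / n))) :=
      mul_le_mul_of_nonneg_right h3 hE
    _ = _ := by ring

end Pool.Agent.T6.H63.WK
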