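import Pool.Agent.T6.H63.WK.Defs

set_option autoImplicit false

open Finset Pool.Agent.Y117.SG

namespace Pool.Agent.T6.H63.WK

lemma board_spec {n k : ℕ} {c : Clause n} (h : c ∈ board n k) :
    c.card = k ∧ ∀ l ∈ c, ∀ l' ∈ c, l.1 = l'.1 → l = l' := by
  simpa [board] using h

lemma vars_card {n k : ℕ} {c : Clause n} (h : c ∈ board n k) : (vars c).card = k := by
  obtain ⟨h1, h2⟩ := board_spec h
  unfold vars
  rw [Finset.card_image_of_injOn, h1]
  intro l hl l' hl' e
  exact h2 l hl l' hl' e

lemma out_mono {n : ℕ} {W W' : Finset (Fin n)} (h : W ⊆ W') {c : Clause n} (hc : Out W c) : Out W' c :=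
  fun l hl hW => hc l hl fun h' => hW (h h')

theorem hall : StmHall := by
  classical
  intro n k u F hk hun hF h1 h2
  obtain ⟨P, hP⟩ : ∃ P : ℕ → Prop, P = fun m => ∃ (W : Finset (Fin n)) (U : Finset (Clause n)), U ⊆ F ∧ U.card = m ∧
    W.card ≤ 2 * m ∧ ∀ c ∈ U, Out W c ∧ 2 ≤ (vars c ∩ W).card := ⟨_, rfl⟩
  have P0 : P 0 := by
    rw [hP]
    exact ⟨∅, ∅, by simp, by simp, by simp, by simp⟩
  have hm := Nat.findGreatest_spec (P := P) (Nat.zero_le u) P0
  have hmu := Nat.findGreatest_le (P := P) u
  have hmax : ∀ j, Nat.findGreatest P u < j → j ≤ u → ¬ P j := fun j hj hju =>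
    Nat.findGreatest_is_greatest hj hju
  obtain ⟨m, hmdef⟩ : ∃ m, m = Nat.findGreatest P u := ⟨_, rfl⟩
  rw [← hmdef] at hm hmu hmax
  have hm' := hm
  rw [hP] at hm'
  obtain ⟨W, U, hUF, hUc, hWc, hU⟩ := hm'
  have hlt : m < u := by
    rcases Nat.lt_or_ge m u with h | h
    · exact h
    exfalso
    have hmu' : m = u := le_antisymm hmu h
    obtain ⟨W', hWW', hW'⟩ : ∃ W' : Finset (Fin n), W ⊆ W' ∧ W'.card = 2 * u := by
      apply Finset.exists_superset_card_eq
      · omega
      · simpa using hun
    refine h1 W' hW' U hUF (by omega) ?_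
    intro c hc
    unfold fam1
    rw [Finset.mem_filter]
    exact ⟨hF (hUF hc), out_mono hWW' (hU c hc).1⟩
  have key : ∀ c ∈ F, Out W c → 2 ≤ (vars c ∩ W).card := by
    intro c hc hout
    by_contra hlt2
    have hcU : c ∉ U := fun h => hlt2 (hU c h).2
    obtain ⟨Z, hZ, hZc⟩ : ∃ Z ⊆ vars c, Z.card = 2 := by
      apply Finset.exists_subset_card_eq
      rw [vars_card (hF hc)]
      exact hk
    refine hmax (m + 1) (by omega) (by omega) ?_
    rw [hP]
    refine ⟨W ∪ Z, insert c U, ?_, ?_, ?_, ?_⟩
    · intro c' hc'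
      rcases Finset.mem_insert.1 hc' with rfl | h
      · exact hc
      · exact hUF h
    · rw [Finset.card_insert_of_notMem hcU, hUc]
    · have := Finset.card_union_le W Z
      omega
    · intro c' hc'
      rcases Finset.mem_insert.1 hc' with rfl | h
      · refine ⟨out_mono Finset.subset_union_left hout, ?_⟩
        rw [← hZc]
        apply Finset.card_le_card
        intro x hx
        exact Finset.mem_inter.2 ⟨hZ hx, Finset.mem_union_right _ hx⟩
      · refine ⟨out_mono Finset.subset_union_left (hU c' h).1, (hU c' h).2.trans ?_⟩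
        apply Finset.card_le_card
        exact Finset.inter_subset_inter_left Finset.subset_union_left
  obtain ⟨f, hf, hft⟩ := (Finset.all_card_le_biUnion_card_iff_exists_injective
    (fun c : {c // c ∈ F ∧ Out W c} => vars c.1 ∩ W)).1 (by
      intro s
      by_contra hcon
      push Not at hcon
      obtain ⟨Y, hY⟩ : ∃ Y, Y = s.biUnion (fun c : {c // c ∈ F ∧ Out W c} => vars c.1 ∩ W) := ⟨_, rfl⟩
      rw [← hY] at hcon
      have hYW : Y ⊆ W := by
        rw [hY]
        intro x hx
        obtain ⟨c, -, hc⟩ := Finset.mem_biUnion.1 hx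
        exact (Finset.mem_inter.1 hc).2
      obtain ⟨S', hS's, hS'c⟩ : ∃ S' ⊆ s, S'.card = Y.card + 1 :=
        Finset.exists_subset_card_eq hcon
      have hYc : Y.card ≤ 2 * u := by
        have := Finset.card_le_card hYW
        omega
      refine h2 Y hYc (S'.image Subtype.val) ?_ ?_ ?_
      · intro c hc
        obtain ⟨c', -, rfl⟩ := Finset.mem_image.1 hc
        exact c'.2.1
      · rw [Finset.card_image_of_injective _ Subtype.val_injective, hS'c]
      · intro c hc
        obtain ⟨c', hc', rfl⟩ := Finset.mem_image.1 hc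
        have hsub : vars c'.1 ∩ W ⊆ Y := by
          rw [hY]
          exact Finset.subset_biUnion_of_mem (fun c : {c // c ∈ F ∧ Out W c} => vars c.1 ∩ W) (hS's hc')
        unfold fam2
        rw [Finset.mem_filter]
        refine ⟨hF c'.2.1, ?_, ?_⟩
        · intro l hl hlY
          apply c'.2.2 l hl
          intro hlW
          apply hlY
          apply hsub
          exact Finset.mem_inter.2 ⟨Finset.mem_image_of_mem _ hl, hlW⟩
        · refine (key c'.1 c'.2.1 c'.2.2).trans (Finset.card_le_card ?_)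
          intro x hx
          exact Finset.mem_inter.2 ⟨(Finset.mem_inter.1 hx).1, hsub hx⟩)
  refine ⟨fun x => if ∃ c : {c // c ∈ F ∧ Out W c}, f c = x ∧ (x, false) ∈ c.1 then false else true, ?_⟩
  intro c hc
  by_cases hout : Out W c
  · have h3 := hft ⟨c, hc, hout⟩
    simp only [Finset.mem_inter] at h3
    obtain ⟨l, hl, hlx⟩ := Finset.mem_image.1 h3.1
    refine ⟨l, hl, ?_⟩
    obtain ⟨x, b⟩ := l
    simp only at hlx
    cases b with
    | false =>
      simp only
      rw [if_pos]
      exact ⟨⟨c, hc, hout⟩, hlx.symm, hl⟩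
    | true =>
      simp only
      rw [if_neg]
      rintro ⟨c'', h4, h5⟩
      have h6 : c'' = ⟨c, hc, hout⟩ := hf (h4.trans hlx)
      rw [h6] at h5
      have := (board_spec (hF hc)).2 _ hl _ h5 rfl
      simp at this
  · unfold Out at hout
    push Not at hout
    obtain ⟨l, hl, hlW, hl2⟩ := hout
    refine ⟨l, hl, ?_⟩
    have hb : l.2 = true := by
      cases h : l.2 with
      | false => exact absurd h hl2
      | true => rfl
    rw [hb]
    beta_reduce
    rw [if_neg]
    rintro ⟨c'', h4, -⟩
    have h7 := (Finset.mem_inter.1 (hft c'')).2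
    rw [h4] at h7
    exact hlW h7

end Pool.Agent.T6.H63.WK
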