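import Pool.Agent.T6.H63.WK.Defs

/-! Project WK, module POT (helper4): Client's potential criterion. -/

set_option autoImplicit false

open Finset Pool.Agent.Y117.SG

namespace Pool.Agent.T6.H63.WK

namespace POT

variable {C : Type} [DecidableEq C]

noncomputable def term (q : ℕ) (A X Y : Finset C) : ℝ :=
  if A ⊆ X ∪ Y then ((q : ℝ) + 1)⁻¹ ^ (A \ Y).card else 0

theorem term_nonneg (q : ℕ) (A X Y : Finset C) : 0 ≤ term q A X Y := by
  unfold term
  split_ifs
  · positivity
  · exact le_rfl

theorem sum_term_le (q : ℕ) (A X Y B : Finset C) (hBX : B ⊆ X) (hB : B.card = q + 1)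
    (hd : Disjoint X Y) :
    ∑ c ∈ B, term q A (X \ B) (insert c Y) ≤ ((q : ℝ) + 1) * term q A X Y := by
  have hsub : ∀ c ∈ B, A ⊆ (X \ B) ∪ insert c Y → A ⊆ X ∪ Y := by
    intro c hc h a ha
    have h1 := h ha
    simp only [mem_union, mem_sdiff, mem_insert] at h1 ⊢
    rcases h1 with h1 | h1 | h1
    · exact Or.inl h1.1
    · rw [h1]; exact Or.inl (hBX hc)
    · exact Or.inr h1
  have hq : ((q : ℝ) + 1) ≠ 0 := by positivity
  by_cases hD : ∃ d, d ∈ A ∧ d ∈ B
  · obtain ⟨d, hdA, hdB⟩ := hD
    have hdY : d ∉ Y := fun h => (Finset.disjoint_left.1 hd (hBX hdB)) h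
    rw [Finset.sum_eq_single_of_mem d hdB]
    · unfold term
      split_ifs with h1 h2 h2
      · have h3 : A \ Y = insert d (A \ insert d Y) := by
          ext a
          simp only [mem_sdiff, mem_insert, not_or]
          constructor
          · rintro ⟨h4, h5⟩
            by_cases h6 : a = d
            · exact Or.inl h6
            · exact Or.inr ⟨h4, h6, h5⟩
          · rintro (h4 | ⟨h4, h5, h6⟩)
            · rw [h4]; exact ⟨hdA, hdY⟩
            · exact ⟨h4, h6⟩
        have h4 : d ∉ A \ insert d Y := by simp
        rw [h3, Finset.card_insert_of_notMem h4, pow_succ]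
        apply le_of_eq
        field_simp
      · exact absurd (hsub d hdB h1) h2
      · positivity
      · simp
    · intro c hc hcd
      unfold term
      rw [if_neg]
      intro h
      have h1 := h hdA
      simp only [mem_union, mem_sdiff, mem_insert] at h1
      rcases h1 with h1 | h1 | h1
      · exact h1.2 hdB
      · exact hcd h1.symm
      · exact hdY h1
  · have h1 : ∀ c ∈ B, term q A (X \ B) (insert c Y) ≤ term q A X Y := by
      intro c hc
      have hcA : c ∉ A := fun h => hD ⟨c, h, hc⟩
      unfold term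
      split_ifs with h2 h3 h3
      · have h4 : A \ insert c Y = A \ Y := by
          ext a
          simp only [mem_sdiff, mem_insert, not_or]
          constructor
          · rintro ⟨h5, _, h6⟩
            exact ⟨h5, h6⟩
          · rintro ⟨h5, h6⟩
            exact ⟨h5, fun h => hcA (h ▸ h5), h6⟩
        rw [h4]
      · exact absurd (hsub c hc h2) h3
      · positivity
      · exact le_rfl
    have h2 := Finset.sum_le_card_nsmul B _ _ h1
    rw [hB, nsmul_eq_mul] at h2
    push_cast at h2
    exact h2

end POT

open POT in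
theorem pot : StmPot := by
  intro C ι _ q goal I A X Y hF
  show (∑ i ∈ I, term q (A i) X Y) < 1 → Disjoint X Y → _
  induction hF with
  | stop X Y hstop hg =>
    intro hlt _
    refine ⟨Y, Finset.subset_union_right, hg, ?_⟩
    intro i hi hAi
    have h1 : term q (A i) X Y = 1 := by
      unfold term
      rw [if_pos (hAi.trans Finset.subset_union_right), Finset.sdiff_eq_empty_iff_subset.2 hAi]
      simp
    have h2 := Finset.single_le_sum (f := fun i => term q (A i) X Y)
      (fun j _ => term_nonneg q (A j) X Y) hi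
    linarith
  | round X Y B hB _ ih =>
    intro hlt hd
    obtain ⟨hBX, hBc⟩ := hB
    have hsum : ∑ c ∈ B, ∑ i ∈ I, term q (A i) (X \ B) (insert c Y) ≤
        ((q : ℝ) + 1) * ∑ i ∈ I, term q (A i) X Y := by
      rw [Finset.sum_comm, Finset.mul_sum]
      exact Finset.sum_le_sum fun i _ => sum_term_le q (A i) X Y B hBX hBc hd
    have hex : ∃ c ∈ B, ∑ i ∈ I, term q (A i) (X \ B) (insert c Y) < 1 := by
      by_contra hcon
      push Not at hcon
      have h1 := Finset.card_nsmul_le_sum B _ 1 hcon
      rw [hBc, nsmul_eq_mul, mul_one] at h1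
      push_cast at h1
      have h2 : (0 : ℝ) < (q : ℝ) + 1 := by positivity
      nlinarith
    obtain ⟨c, hc, hlt'⟩ := hex
    have hd' : Disjoint (X \ B) (insert c Y) := by
      rw [Finset.disjoint_left]
      intro a ha ha'
      rw [mem_sdiff] at ha
      rcases mem_insert.1 ha' with h | h
      · exact ha.2 (h ▸ hc)
      · exact (Finset.disjoint_left.1 hd ha.1) h
    obtain ⟨Y', hY', hg, hno⟩ := ih c hc hlt' hd'
    refine ⟨Y', ?_, hg, hno⟩
    intro a ha
    have h1 := hY' ha
    simp only [mem_union, mem_sdiff, mem_insert] at h1 ⊢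
    rcases h1 with h1 | h1 | h1
    · exact Or.inl h1.1
    · rw [h1]; exact Or.inl (hBX hc)
    · exact Or.inr h1

end Pool.Agent.T6.H63.WK
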