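import Pool.Agent.T6.H63.WK.Defs

/-! Module CNT1 of project WK (helper54). -/

set_option autoImplicit false

open Finset Pool.Agent.Y117.SG

namespace Pool.Agent.T6.H63.WK

namespace CNT1

theorem choose_bound (n k : ℕ) (hk : k ≤ n) (hn : 0 < n) :
    ∀ i : ℕ, i ≤ k → ((n - i).choose (k - i) : ℝ) ≤ ((k : ℝ) / n) ^ i * (n.choose k : ℝ) := by
  intro i
  induction i with
  | zero => intro _; simp
  | succ i ih =>
    intro hi
    have h1 := ih (by omega)
    have ha : n - i = (n - (i + 1)) + 1 := by omega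
    have hb : k - i = (k - (i + 1)) + 1 := by omega
    have h2 := Nat.add_one_mul_choose_eq (n - (i + 1)) (k - (i + 1))
    rw [← ha, ← hb] at h2
    have h3 : ((n - i : ℕ) : ℝ) * ((n - (i + 1)).choose (k - (i + 1)) : ℝ) =
        ((n - i).choose (k - i) : ℝ) * ((k - i : ℕ) : ℝ) := by exact_mod_cast h2
    have hn' : (0 : ℝ) < n := by exact_mod_cast hn
    have hni : (0 : ℝ) < ((n - i : ℕ) : ℝ) := by
      have : 0 < n - i := by omega
      exact_mod_cast this
    have h4 : ((k - i : ℕ) : ℝ) ≤ ((k : ℝ) / n) * ((n - i : ℕ) : ℝ) := by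
      rw [div_mul_eq_mul_div, le_div_iff₀ hn']
      have h5 : (k - i) * n ≤ k * (n - i) := by
        zify [show i ≤ k by omega, show i ≤ n by omega]
        have : (i : ℤ) * k ≤ i * n := by
          have : (k : ℤ) ≤ n := by exact_mod_cast hk
          exact mul_le_mul_of_nonneg_left this (by positivity)
        nlinarith
      exact_mod_cast h5
    have h6 : (0 : ℝ) ≤ ((n - i).choose (k - i) : ℝ) := by positivity
    have h7 : ((n - i : ℕ) : ℝ) * ((n - (i + 1)).choose (k - (i + 1)) : ℝ) ≤
        ((n - i : ℕ) : ℝ) * (((k : ℝ) / n) * ((n - i).choose (k - i) : ℝ)) := by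
      rw [h3]
      calc ((n - i).choose (k - i) : ℝ) * ((k - i : ℕ) : ℝ)
          ≤ ((n - i).choose (k - i) : ℝ) * (((k : ℝ) / n) * ((n - i : ℕ) : ℝ)) :=
            mul_le_mul_of_nonneg_left h4 h6
        _ = _ := by ring
    have h8 := le_of_mul_le_mul_left h7 hni
    calc ((n - (i + 1)).choose (k - (i + 1)) : ℝ)
        ≤ ((k : ℝ) / n) * ((n - i).choose (k - i) : ℝ) := h8
      _ ≤ ((k : ℝ) / n) * (((k : ℝ) / n) ^ i * (n.choose k : ℝ)) :=
          mul_le_mul_of_nonneg_left h1 (by positivity)
      _ = _ := by ring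

theorem card_super (n k : ℕ) (hk : k ≤ n) (hn : 0 < n) (I : Finset (Fin n)) :
    ((((powersetCard k (univ : Finset (Fin n))).filter (fun K => I ⊆ K)).card : ℕ) : ℝ) ≤
      ((k : ℝ) / n) ^ I.card * (n.choose k : ℝ) := by
  classical
  by_cases hI : I.card ≤ k
  · refine le_trans ?_ (choose_bound n k hk hn I.card hI)
    have h1 : ((powersetCard k (univ : Finset (Fin n))).filter (fun K => I ⊆ K)).card ≤
        (powersetCard (k - I.card) (univ \ I)).card := by
      refine Finset.card_le_card_of_injOn (fun K => K \ I) ?_ ?_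
      · intro K hK
        have hK' := Finset.mem_filter.1 (Finset.mem_coe.1 hK)
        rw [Finset.mem_coe, Finset.mem_powersetCard]
        refine ⟨Finset.sdiff_subset_sdiff (Finset.subset_univ _) (Finset.Subset.refl _), ?_⟩
        show (K \ I).card = k - I.card
        rw [Finset.card_sdiff_of_subset hK'.2, (Finset.mem_powersetCard.1 hK'.1).2]
      · intro K hK K' hK' h
        have h1 := (Finset.mem_filter.1 (Finset.mem_coe.1 hK)).2
        have h2 := (Finset.mem_filter.1 (Finset.mem_coe.1 hK')).2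
        have h3 : K \ I = K' \ I := h
        rw [← Finset.sdiff_union_of_subset h1, ← Finset.sdiff_union_of_subset h2, h3]
    rw [Finset.card_powersetCard, Finset.card_sdiff_of_subset (Finset.subset_univ _),
      Finset.card_univ, Fintype.card_fin] at h1
    exact_mod_cast h1
  · have h0 : (powersetCard k (univ : Finset (Fin n))).filter (fun K => I ⊆ K) = ∅ := by
      rw [Finset.filter_eq_empty_iff]
      intro K hK hIK
      have h1 := Finset.card_le_card hIK
      rw [(Finset.mem_powersetCard.1 hK).2] at h1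
      exact hI h1
    rw [h0]
    simp only [Finset.card_empty, Nat.cast_zero]
    positivity

/-- the variables of the positive literals -/
def pos {n : ℕ} (c : Clause n) : Finset (Fin n) := (c.filter (fun l => l.2 = true)).image Prod.fst

theorem mem_pos {n : ℕ} {c : Clause n} {v : Fin n} : v ∈ pos c ↔ (v, true) ∈ c := by
  unfold pos
  rw [Finset.mem_image]
  constructor
  · rintro ⟨⟨a, b⟩, h, rfl⟩
    obtain ⟨h1, h2⟩ := Finset.mem_filter.1 h
    simp only at h2
    subst h2
    exact h1
  · intro h
    exact ⟨(v, true), Finset.mem_filter.2 ⟨h, rfl⟩, rfl⟩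

theorem mem_vars {n : ℕ} {c : Clause n} {v : Fin n} : v ∈ vars c ↔ ∃ b, (v, b) ∈ c := by
  unfold vars
  rw [Finset.mem_image]
  constructor
  · rintro ⟨⟨a, b⟩, h, rfl⟩
    exact ⟨b, h⟩
  · rintro ⟨b, h⟩
    exact ⟨(v, b), h, rfl⟩

theorem sub_of {n k : ℕ} {c c' : Clause n} (hc : c ∈ board n k) (h1 : pos c = pos c')
    (h2 : vars c = vars c') : c ⊆ c' := by
  rintro ⟨v, b⟩ hvb
  have hb := (Finset.mem_filter.1 hc).2.2
  cases b with
  | true =>
    have : v ∈ pos c := mem_pos.2 hvb
    rw [h1] at this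
    exact mem_pos.1 this
  | false =>
    have : v ∈ vars c := mem_vars.2 ⟨false, hvb⟩
    rw [h2] at this
    obtain ⟨b', hb'⟩ := mem_vars.1 this
    cases b' with
    | false => exact hb'
    | true =>
      have h3 : v ∈ pos c' := mem_pos.2 hb'
      rw [← h1] at h3
      have h4 := hb _ hvb _ (mem_pos.1 h3) rfl
      simp at h4

theorem card_vars {n k : ℕ} {c : Clause n} (hc : c ∈ board n k) : (vars c).card = k := by
  have hb := (Finset.mem_filter.1 hc).2
  rw [← hb.1]
  unfold vars
  refine Finset.card_image_of_injOn ?_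
  intro l hl l' hl' h
  exact hb.2 l hl l' hl' h

end CNT1

open CNT1

theorem cnt1 : StmCnt1 := by
  classical
  intro n k hk2 hkn W
  have hn : 0 < n := by omega
  have hn' : (0 : ℝ) < n := by exact_mod_cast hn
  have h1 : (fam1 n k W).card ≤ (W.powerset.sigma (fun I =>
      (powersetCard k (univ : Finset (Fin n))).filter (fun K => I ⊆ K))).card := by
    refine Finset.card_le_card_of_injOn (fun c => ⟨pos c, vars c⟩) ?_ ?_
    · intro c hc
      have hc' := Finset.mem_filter.1 (Finset.mem_coe.1 hc)
      rw [Finset.mem_coe, Finset.mem_sigma]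
      refine ⟨Finset.mem_powerset.2 ?_, Finset.mem_filter.2 ⟨?_, ?_⟩⟩
      · intro v hv
        have hv' : (v, true) ∈ c := mem_pos.1 hv
        by_contra hW
        have := hc'.2 (v, true) hv' hW
        simp at this
      · exact Finset.mem_powersetCard.2 ⟨Finset.subset_univ _, card_vars hc'.1⟩
      · intro v hv
        exact mem_vars.2 ⟨true, mem_pos.1 hv⟩
    · intro c hc c' hc' h
      have hb := (Finset.mem_filter.1 (Finset.mem_coe.1 hc)).1
      have hb' := (Finset.mem_filter.1 (Finset.mem_coe.1 hc')).1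
      have hp : pos c = pos c' := congrArg Sigma.fst h
      have hv : vars c = vars c' := congrArg (fun x : (_ : Finset (Fin n)) × Finset (Fin n) => x.2) h
      exact Finset.Subset.antisymm (sub_of hb hp hv) (sub_of hb' hp.symm hv.symm)
  rw [Finset.card_sigma] at h1
  have h2 : ((fam1 n k W).card : ℝ) ≤ ∑ I ∈ W.powerset, ((k : ℝ) / n) ^ I.card * (n.choose k : ℝ) := by
    calc ((fam1 n k W).card : ℝ) ≤ ((∑ I ∈ W.powerset,
          ((powersetCard k (univ : Finset (Fin n))).filter (fun K => I ⊆ K)).card : ℕ) : ℝ) := by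
          exact_mod_cast h1
      _ = ∑ I ∈ W.powerset,
          ((((powersetCard k (univ : Finset (Fin n))).filter (fun K => I ⊆ K)).card : ℕ) : ℝ) := by
          push_cast
          rfl
      _ ≤ _ := Finset.sum_le_sum fun I _ => card_super n k hkn hn I
  have h3 : ∑ I ∈ W.powerset, ((k : ℝ) / n) ^ I.card = ((k : ℝ) / n + 1) ^ W.card := by
    have := Finset.sum_pow_mul_eq_add_pow ((k : ℝ) / n) 1 W
    simpa using this
  rw [← Finset.sum_mul, h3] at h2
  refine h2.trans ?_
  rw [mul_comm]
  refine mul_le_mul_of_nonneg_left ?_ (by positivity)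
  calc ((k : ℝ) / n + 1) ^ W.card ≤ (Real.exp ((k : ℝ) / n)) ^ W.card :=
        pow_le_pow_left₀ (by positivity) (Real.add_one_le_exp _) _
    _ = Real.exp (k * W.card / n) := by
        rw [← Real.exp_nat_mul]
        congr 1
        ring

end Pool.Agent.T6.H63.WK
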