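import Pool.Agent.Y117.SG.Game

/-!
# Waiter-Client `k`-SAT: Client wins if `n (q + 1) ≥ 256 k^3 (n choose k)`: definitions and statements of the modules
-/

set_option autoImplicit false

open Finset Pool.Agent.Y117.SG

namespace Pool.Agent.T6.H63.WK

/-- the variables of a clause -/
def vars {n : ℕ} (c : Clause n) : Finset (Fin n) := c.image Prod.fst

/-- all literals of `c` outside `W` are negative -/
def Out {n : ℕ} (W : Finset (Fin n)) (c : Clause n) : Prop := ∀ l ∈ c, l.1 ∉ W → l.2 = false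

open Classical in
noncomputable def fam1 (n k : ℕ) (W : Finset (Fin n)) : Finset (Clause n) :=
  (board n k).filter (fun c => Out W c)

open Classical in
noncomputable def fam2 (n k : ℕ) (W : Finset (Fin n)) : Finset (Clause n) :=
  (board n k).filter (fun c => Out W c ∧ 2 ≤ (vars c ∩ W).card)

/-- MODULE CNT1: with `I = {i | (i, true) ∈ c} ⊆ W` and `K = vars c ⊇ I` a clause of `fam1` is determined by `(I, K)`;
there are `(n - i).choose (k - i) ≤ (k / n)^i * n.choose k` sets `K ⊇ I`, `|I| = i`, and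
`∑ I ⊆ W, (k/n)^|I| = (1 + k/n)^|W| ≤ exp (k |W| / n)`. -/
def StmCnt1 : Prop := ∀ n k : ℕ, 2 ≤ k → k ≤ n → ∀ W : Finset (Fin n),
  ((fam1 n k W).card : ℝ) ≤ (n.choose k : ℝ) * Real.exp (k * W.card / n)

/-- MODULE CNT2: as CNT1, for each of the at most `|W|^2 / 2` pairs `{a, b} ⊆ W` with `a, b ∈ K`:
at most `4 (k/n)^2 (1 + k/n)^|W| * n.choose k` clauses (sum over `I` of `(k/n)^|I ∪ {a,b}|`). -/
def StmCnt2 : Prop := ∀ n k : ℕ, 2 ≤ k → k ≤ n → ∀ W : Finset (Fin n),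
  ((fam2 n k W).card : ℝ) ≤
    2 * (W.card : ℝ) ^ 2 * ((k : ℝ) / n) ^ 2 * (n.choose k : ℝ) * Real.exp (k * W.card / n)

/-- MODULE NUM: purely numerical. -/
def StmNum : Prop := ∀ n k u : ℕ, 2 ≤ k → 200 * k ≤ n → u = n / (2 * k) →
  (n.choose (2 * u) : ℝ) * ((Real.exp 1 * n / (256 * k ^ 3)) ^ u / (u.factorial : ℝ)) +
    ∑ y ∈ Finset.range (2 * u + 1), (n.choose y : ℝ) *
      ((Real.exp 1 * y ^ 2 / (128 * k * n)) ^ (y + 1) / ((y + 1).factorial : ℝ)) < 1

/-- MODULE POT: Client's criterion. If Waiter can force `goal` and the potential of the indexed family `A i`, `i ∈ I`, is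
less than `1`, then some set with `goal` contains no `A i`. -/
def StmPot : Prop := ∀ (C ι : Type) [DecidableEq C] (q : ℕ) (goal : Finset C → Prop) (I : Finset ι)
  (A : ι → Finset C) (X Y : Finset C), Forces (offerWC q) goal X Y →
  (∑ i ∈ I, (if A i ⊆ X ∪ Y then ((q : ℝ) + 1)⁻¹ ^ (A i \ Y).card else 0)) < 1 →
  Disjoint X Y → ∃ Y', Y' ⊆ X ∪ Y ∧ goal Y' ∧ ∀ i ∈ I, ¬ A i ⊆ Y'

/-- MODULE HALL: the deterministic part. -/
def StmHall : Prop := ∀ (n k u : ℕ) (F : Finset (Clause n)), 2 ≤ k → 2 * u ≤ n → F ⊆ board n k →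
  (∀ W : Finset (Fin n), W.card = 2 * u → ∀ U ⊆ F, U.card = u → ¬ U ⊆ fam1 n k W) →
  (∀ Y : Finset (Fin n), Y.card ≤ 2 * u → ∀ S ⊆ F, S.card = Y.card + 1 → ¬ S ⊆ fam2 n k Y) →
  Sat F

end Pool.Agent.T6.H63.WK
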