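import Pool.Agent.T6.H63.WK.Defs

/-! Project WK (`MP_fefad7_co`), module NUM: the numerical inequality. -/

set_option autoImplicit false

open Finset

namespace Pool.Agent.T6.H63.WK

theorem num : StmNum := by
  intro n k u hk hn hu
  have hE1 : Real.exp 1 < 2.7182818286 := Real.exp_one_lt_d9
  have hE0 : 0 < Real.exp 1 := Real.exp_pos 1
  obtain ⟨E, hE⟩ : ∃ E : ℝ, E = Real.exp 1 := ⟨_, rfl⟩
  rw [← hE] at hE1 hE0 ⊢
  have hexp : ∀ m : ℕ, Real.exp (m : ℝ) = E ^ m := by
    intro m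
    rw [hE, ← Real.exp_nat_mul, mul_one]
  have hf : ∀ a m : ℕ, (a : ℝ) ^ m / (m.factorial : ℝ) ≤ E ^ a := by
    intro a m
    rw [← hexp]
    exact Real.pow_div_factorial_le_exp _ (Nat.cast_nonneg _) _
  have hkr : (2 : ℝ) ≤ k := by exact_mod_cast hk
  have hk0 : (0 : ℝ) < k := by linarith
  have hnr : (200 : ℝ) * k ≤ n := by exact_mod_cast hn
  have hn0 : (0 : ℝ) < n := by linarith
  have hu1 : 100 ≤ u := by
    rw [hu, Nat.le_div_iff_mul_le (by omega)]
    omega
  have hu2 : 2 * k * u ≤ n := by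
    rw [hu]
    exact Nat.mul_div_le n (2 * k)
  have hu3 : n < 2 * k * (u + 1) := by
    rw [hu]
    exact Nat.lt_mul_div_succ n (by omega)
  have hu1r : (100 : ℝ) ≤ u := by exact_mod_cast hu1
  have hu0 : (0 : ℝ) < u := by linarith
  have hu3r : (n : ℝ) < 2 * k * (u + 1) := by exact_mod_cast hu3
  have h2u : 2 * u ≤ n := by
    calc 2 * u ≤ 2 * k * u := by nlinarith
      _ ≤ n := hu2
  have hE2 : E ^ 2 ≤ 2.7182818286 ^ 2 := pow_le_pow_left₀ hE0.le hE1.le 2
  have hE3 : E ^ 3 ≤ 2.7182818286 ^ 3 := pow_le_pow_left₀ hE0.le hE1.le 3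
  have hE4 : E ^ 4 ≤ 2.7182818286 ^ 4 := pow_le_pow_left₀ hE0.le hE1.le 4
  -- the first term
  have first : (n.choose (2 * u) : ℝ) * ((E * n / (256 * k ^ 3)) ^ u / (u.factorial : ℝ)) ≤ 1 / 4 := by
    obtain ⟨r, hr⟩ : ∃ r : ℝ, r = n / u := ⟨_, rfl⟩
    have hr0 : 0 < r := by rw [hr]; positivity
    have hnr2 : (n : ℝ) = r * u := by rw [hr]; field_simp
    have hr2 : r ≤ 2.02 * k := by
      rw [hr, div_le_iff₀ hu0]
      have : 2 * (k : ℝ) * 1 ≤ 2 * k * (u / 100) := by
        apply mul_le_mul_of_nonneg_left _ (by positivity)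
        linarith
      nlinarith
    have t1 : (n.choose (2 * u) : ℝ) ≤ (r / 2) ^ (2 * u) * E ^ (2 * u) := by
      calc (n.choose (2 * u) : ℝ) ≤ (n : ℝ) ^ (2 * u) / ((2 * u).factorial : ℝ) :=
            Nat.choose_le_pow_div _ _
        _ = (r / 2) ^ (2 * u) * (((2 * u : ℕ) : ℝ) ^ (2 * u) / ((2 * u).factorial : ℝ)) := by
            rw [← mul_div_assoc, ← mul_pow]
            congr 2
            rw [hnr2]
            push_cast
            ring
        _ ≤ _ := mul_le_mul_of_nonneg_left (hf _ _) (by positivity)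
    have t2 : (E * n / (256 * k ^ 3)) ^ u / (u.factorial : ℝ) ≤ (E * r / (256 * k ^ 3)) ^ u * E ^ u := by
      calc (E * n / (256 * k ^ 3)) ^ u / (u.factorial : ℝ)
          = (E * r / (256 * k ^ 3)) ^ u * ((u : ℝ) ^ u / (u.factorial : ℝ)) := by
            rw [← mul_div_assoc, ← mul_pow]
            congr 2
            rw [hnr2]
            ring
        _ ≤ _ := mul_le_mul_of_nonneg_left (hf _ _) (by positivity)
    have t3 : (n.choose (2 * u) : ℝ) * ((E * n / (256 * k ^ 3)) ^ u / (u.factorial : ℝ)) ≤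
        ((r / 2) ^ 2 * E ^ 2 * (E * r / (256 * k ^ 3)) * E) ^ u := by
      refine (mul_le_mul t1 t2 (by positivity) (by positivity)).trans (le_of_eq ?_)
      rw [mul_pow _ E, mul_pow _ (E * r / (256 * (k : ℝ) ^ 3)), mul_pow, ← pow_mul, ← pow_mul]
      ring
    have t4 : (r / 2) ^ 2 * E ^ 2 * (E * r / (256 * k ^ 3)) * E ≤ 1 / 2 := by
      obtain ⟨w, hw⟩ : ∃ w : ℝ, w = r / k := ⟨_, rfl⟩
      have hw0 : 0 < w := by rw [hw]; positivity
      have hw1 : w ≤ 2.02 := by rw [hw, div_le_iff₀ hk0]; exact hr2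
      have hw3 : w ^ 3 ≤ 2.02 ^ 3 := pow_le_pow_left₀ hw0.le hw1 3
      have e : (r / 2) ^ 2 * E ^ 2 * (E * r / (256 * k ^ 3)) * E = w ^ 3 * E ^ 4 / 1024 := by
        rw [hw]
        field_simp
        ring
      rw [e]
      have : w ^ 3 * E ^ 4 ≤ 2.02 ^ 3 * 2.7182818286 ^ 4 :=
        mul_le_mul hw3 hE4 (by positivity) (by positivity)
      have h2 : (2.02 : ℝ) ^ 3 * 2.7182818286 ^ 4 ≤ 512 := by norm_num
      linarith
    refine t3.trans ((pow_le_pow_left₀ (by positivity) t4 u).trans ?_)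
    calc (1 / 2 : ℝ) ^ u ≤ (1 / 2) ^ 2 := pow_le_pow_of_le_one (by norm_num) (by norm_num) (by omega)
      _ = 1 / 4 := by norm_num
  -- the second sum
  have second : ∀ y ∈ Finset.range (2 * u + 1), (n.choose y : ℝ) *
      ((E * y ^ 2 / (128 * k * n)) ^ (y + 1) / ((y + 1).factorial : ℝ)) ≤ 1 / 8 * (1 / 2) ^ y := by
    intro y hy
    rw [Finset.mem_range] at hy
    rcases Nat.eq_zero_or_pos y with h0 | h0
    · subst h0
      norm_num
    · have hy0 : (0 : ℝ) < y := by exact_mod_cast h0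
      have hyn : (y : ℝ) ≤ n := by exact_mod_cast (by omega : y ≤ n)
      have t1 : (n.choose y : ℝ) ≤ (n / y) ^ y * E ^ y := by
        calc (n.choose y : ℝ) ≤ (n : ℝ) ^ y / (y.factorial : ℝ) := Nat.choose_le_pow_div _ _
          _ = (n / y) ^ y * ((y : ℝ) ^ y / (y.factorial : ℝ)) := by
              rw [← mul_div_assoc, ← mul_pow]
              congr 2
              field_simp
          _ ≤ _ := mul_le_mul_of_nonneg_left (hf _ _) (by positivity)
      have t2 : (E * y ^ 2 / (128 * k * n)) ^ (y + 1) / ((y + 1).factorial : ℝ) ≤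
          (E * y / (128 * k * n)) ^ (y + 1) * E ^ y := by
        calc (E * y ^ 2 / (128 * k * n)) ^ (y + 1) / ((y + 1).factorial : ℝ)
            = (E * y / (128 * k * n)) ^ (y + 1) * ((y : ℝ) ^ (y + 1) / ((y + 1).factorial : ℝ)) := by
              rw [← mul_div_assoc, ← mul_pow]
              congr 2
              ring
          _ ≤ _ := mul_le_mul_of_nonneg_left (hf _ _) (by positivity)
      have t3 : (n / y) ^ y * E ^ y * ((E * y / (128 * k * n)) ^ (y + 1) * E ^ y) =
          (E * y / (128 * k * n)) * (n / y * E * (E * y / (128 * k * n)) * E) ^ y := by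
        rw [mul_pow _ E, mul_pow _ (E * (y : ℝ) / (128 * k * n)), mul_pow _ E, pow_succ]
        ring
      have t4 : (n : ℝ) / y * E * (E * y / (128 * k * n)) * E ≤ 1 / 2 := by
        have e : (n : ℝ) / y * E * (E * y / (128 * k * n)) * E = E ^ 3 / (128 * k) := by
          field_simp
        rw [e, div_le_iff₀ (by positivity)]
        have : (2.7182818286 : ℝ) ^ 3 ≤ 128 := by norm_num
        linarith
      have t5 : E * y / (128 * k * n) ≤ 1 / 8 := by
        rw [div_le_iff₀ (by positivity)]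
        have h1 : E * y ≤ 3 * n := mul_le_mul (by linarith) hyn hy0.le (by norm_num)
        have h2 : 2 * (n : ℝ) ≤ k * n := mul_le_mul_of_nonneg_right hkr hn0.le
        linarith
      refine (mul_le_mul t1 t2 (by positivity) (by positivity)).trans ?_
      rw [t3]
      exact mul_le_mul t5 (pow_le_pow_left₀ (by positivity) t4 y) (by positivity) (by norm_num)
  have h3 := Finset.sum_le_sum second
  rw [← Finset.mul_sum] at h3
  have h4 := sum_geometric_two_le (2 * u + 1)
  linarith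

end Pool.Agent.T6.H63.WK
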